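import Pool.Agent.H71.SG.SW

/-! # SJ: structures with isomorphic codes are isomorphic -/

set_option autoImplicit false

open Set

namespace Pool.Agent.SG

namespace SJm

variable {D : Type}

lemma pa_iso {z w : Bst D} {h : Equiv.Perm ℕ} (hh : IsoB z w h) (v p a : ℕ) :
    Pa z v p a ↔ Pa w (h v) p (h a) := by
  unfold Pa
  constructor
  · rintro ⟨u, h1, h2, h3⟩
    refine ⟨h u, ?_, ?_, ?_⟩
    · rw [hh.1]
      exact h1
    · rw [hh.2]
      exact h2
    · rw [hh.1]
      exact h3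
  · rintro ⟨u, h1, h2, h3⟩
    obtain ⟨u, rfl⟩ := h.surjective u
    rw [hh.1] at h1 h3
    rw [hh.2] at h2
    exact ⟨u, h1, h2, h3⟩

lemma iso_symm {z w : Bst D} {h : Equiv.Perm ℕ} (hh : IsoB z w h) : IsoB w z h.symm := by
  refine ⟨fun i j => ?_, fun i => ?_⟩
  · have := hh.1 (h.symm i) (h.symm j)
    rw [Equiv.apply_symm_apply, Equiv.apply_symm_apply] at this
    exact this.symm
  · have := hh.2 (h.symm i)
    rw [Equiv.apply_symm_apply] at this
    exact this.symm

lemma pt {o : D} {x y : Gst D} {h : Equiv.Perm ℕ} (hh : IsoB (code o x) (code o y) h) (i : ℕ) :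
    ∃ j, h (ie (Sum.inl i)) = ie (Sum.inl j) := by
  obtain ⟨w, hw⟩ := ie.surjective (h (ie (Sum.inl i)))
  have h1 := hh.2 (ie (Sum.inl i))
  rw [← hw, code_u, code_u] at h1
  have h2 : (uV o y w).1 = 0 := by
    rw [h1]
    rfl
  obtain ⟨j, rfl⟩ := uV_zero.1 h2
  exact ⟨j, hw.symm⟩

lemma tp {o : D} {x y : Gst D} {h : Equiv.Perm ℕ} (hh : IsoB (code o x) (code o y) h)
    {g : ℕ → ℕ} (hg : ∀ i, h (ie (Sum.inl i)) = ie (Sum.inl (g i))) {l : List ℕ} (hl : x l ≠ o) :
    h (ie (Sum.inr (Sum.inl l))) = ie (Sum.inr (Sum.inl (l.map g))) ∧ y (l.map g) = x l := by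
  obtain ⟨w, hw⟩ := ie.surjective (h (ie (Sum.inr (Sum.inl l))))
  have h1 := hh.2 (ie (Sum.inr (Sum.inl l)))
  rw [← hw, code_u, code_u] at h1
  have h0 : uV o x (Sum.inr (Sum.inl l)) = (2, x l) := by
    classical
    simp [uV, hl]
  rw [h0] at h1
  have h2 : (uV o y w).1 = 2 := by rw [h1]
  obtain ⟨m, rfl, hm⟩ := uV_two.1 h2
  have h3 : uV o y (Sum.inr (Sum.inl m)) = (2, y m) := by
    classical
    simp [uV, hm]
  rw [h3, Prod.mk.injEq] at h1
  have key : ∀ (p i : ℕ), l[p]? = some i → m[p]? = some (g i) := by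
    intro p i hi
    have h4 : Pa (code o x) (ie (Sum.inr (Sum.inl l))) p (ie (Sum.inl i)) :=
      (pa_code hl).2 ⟨i, rfl, hi⟩
    rw [pa_iso hh, ← hw, hg] at h4
    obtain ⟨j, e1, e2⟩ := (pa_code hm).1 h4
    rw [Sum.inl_injective (ie.injective e1)]
    exact e2
  have key2 : ∀ (p b : ℕ), m[p]? = some b → ∃ i, l[p]? = some i := by
    intro p b hb
    have h4 : Pa (code o y) (ie (Sum.inr (Sum.inl m))) p (ie (Sum.inl b)) :=
      (pa_code hm).2 ⟨b, rfl, hb⟩
    rw [hw] at h4
    obtain ⟨a, ha⟩ := h.surjective (ie (Sum.inl b))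
    rw [← ha, ← pa_iso hh] at h4
    obtain ⟨i, -, e2⟩ := (pa_code hl).1 h4
    exact ⟨i, e2⟩
  have h5 : m = l.map g := by
    apply List.ext_getElem?
    intro p
    rw [List.getElem?_map]
    rcases h6 : l[p]? with _ | i
    · rcases h7 : m[p]? with _ | b
      · rfl
      · obtain ⟨i, hi⟩ := key2 p b h7
        rw [h6] at hi
        cases hi
    · rw [key p i h6]
      rfl
  subst h5
  exact ⟨hw.symm, h1.2⟩

end SJm

open SJm in
theorem pf_SJ (D : Type) : T_SJ D := by
  intro o x y h hh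
  choose g hg using pt hh
  choose g' hg' using pt (iso_symm hh)
  have h1 : ∀ i, g' (g i) = i := by
    intro i
    have := hg' (g i)
    rw [← hg, Equiv.symm_apply_apply] at this
    exact (Sum.inl_injective (ie.injective this)).symm
  have h2 : ∀ i, g (g' i) = i := by
    intro i
    have := hg (g' i)
    rw [← hg', Equiv.apply_symm_apply] at this
    exact (Sum.inl_injective (ie.injective this)).symm
  refine ⟨⟨g, g', h1, h2⟩, fun l => ?_⟩
  change y (l.map g) = x l
  by_cases hl : x l = o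
  · by_contra hne
    have h3 : y (l.map g) ≠ o := by
      intro h4
      exact hne (h4.trans hl.symm)
    obtain ⟨-, h5⟩ := tp (iso_symm hh) hg' h3
    rw [List.map_map] at h5
    have h6 : l.map (g' ∘ g) = l := by
      have : g' ∘ g = id := funext h1
      rw [this, List.map_id]
    rw [h6] at h5
    exact hne h5.symm
  · exact (tp hh hg hl).2

end Pool.Agent.SG
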