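import Pool.Agent.H71.SG.Defs
import Mathlib.MeasureTheory.MeasurableSpace.Constructions

/-!
# SM: decoding is Borel
-/

set_option autoImplicit false

open Set

namespace Pool.Agent.SG

open Pool.Agent.CW (Insep HasTK)

namespace Meas

section Gen

variable {Z : Type*} [MeasurableSpace Z]

lemma meas_imp {A : Prop} {B : Z → Prop} (h : MeasurableSet {z | B z}) :
    MeasurableSet {z | A → B z} := by
  by_cases hA : A
  · have h' : {z | A → B z} = {z | B z} := by
      ext z
      exact ⟨fun k => k hA, fun k _ => k⟩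
    rw [h']
    exact h
  · have h' : {z : Z | A → B z} = univ := by
      ext z
      exact ⟨fun _ => trivial, fun _ k => absurd k hA⟩
    rw [h']
    exact MeasurableSet.univ

lemma meas_imp' {A B : Z → Prop} (hA : MeasurableSet {z | A z}) (hB : MeasurableSet {z | B z}) :
    MeasurableSet {z | A z → B z} := by
  have h' : {z | A z → B z} = {z | A z}ᶜ ∪ {z | B z} := by
    ext z
    simp only [mem_ofPred_eq, mem_union, mem_compl_iff]
    exact imp_iff_not_or
  rw [h']
  exact hA.compl.union hB

lemma meas_iff {A B : Z → Prop} (hA : MeasurableSet {z | A z}) (hB : MeasurableSet {z | B z}) :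
    MeasurableSet {z | A z ↔ B z} := by
  have h' : {z | A z ↔ B z} = {z | A z → B z} ∩ {z | B z → A z} := by
    ext z
    exact ⟨fun h => ⟨h.1, h.2⟩, fun h => ⟨h.1, h.2⟩⟩
  rw [h']
  exact (meas_imp' hA hB).inter (meas_imp' hB hA)

lemma meas_all {ι : Type*} [Countable ι] {A : ι → Z → Prop}
    (hA : ∀ i, MeasurableSet {z | A i z}) : MeasurableSet {z | ∀ i, A i z} := by
  have h' : {z | ∀ i, A i z} = ⋂ i, {z | A i z} := by
    ext z
    simp only [mem_ofPred_eq, mem_iInter]
  rw [h']
  exact MeasurableSet.iInter hA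

lemma meas_ex {ι : Type*} [Countable ι] {A : ι → Z → Prop}
    (hA : ∀ i, MeasurableSet {z | A i z}) : MeasurableSet {z | ∃ i, A i z} := by
  have h' : {z | ∃ i, A i z} = ⋃ i, {z | A i z} := by
    ext z
    simp only [mem_ofPred_eq, mem_iUnion]
  rw [h']
  exact MeasurableSet.iUnion hA

lemma meas_and {A B : Z → Prop} (hA : MeasurableSet {z | A z}) (hB : MeasurableSet {z | B z}) :
    MeasurableSet {z | A z ∧ B z} := hA.inter hB

lemma meas_const (A : Prop) : MeasurableSet {_z : Z | A} := MeasurableSet.const A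

lemma meas_sInf {S : Z → Set ℕ} (hS : ∀ x, MeasurableSet {z | x ∈ S z}) (b : ℕ) :
    MeasurableSet {z | sInf (S z) = b} := by
  have h' : {z | sInf (S z) = b} = ({z | b ∈ S z} ∩ {z | ∀ x, x ∈ S z → b ≤ x}) ∪
      ({z | ∀ x, ¬ x ∈ S z} ∩ {_z : Z | b = 0}) := by
    ext z
    simp only [mem_ofPred_eq, mem_union, mem_inter_iff]
    constructor
    · intro h
      rcases (S z).eq_empty_or_nonempty with h0 | h0
      · right
        refine ⟨fun x => by rw [h0]; exact fun k => k, ?_⟩
        rw [h0, Nat.sInf_empty] at h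
        exact h.symm
      · left
        subst h
        exact ⟨Nat.sInf_mem h0, fun x hx => Nat.sInf_le hx⟩
    · rintro (⟨h1, h2⟩ | ⟨h1, rfl⟩)
      · exact le_antisymm (Nat.sInf_le h1) (h2 _ (Nat.sInf_mem ⟨b, h1⟩))
      · have h0 : S z = ∅ := eq_empty_iff_forall_notMem.2 h1
        rw [h0, Nat.sInf_empty]
  rw [h']
  refine MeasurableSet.union ((hS b).inter (meas_all fun x => meas_imp' (hS x) (meas_const _)))
    (MeasurableSet.inter (meas_all fun x => (hS x).compl) (meas_const _))

lemma meas_nth {P : Z → ℕ → Prop} (hP : ∀ v, MeasurableSet {z | P z v}) (n b : ℕ) :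
    MeasurableSet {z | Nat.nth (P z) n = b} := by
  induction n using Nat.strong_induction_on generalizing b with
  | _ n ih =>
    have h' : {z | Nat.nth (P z) n = b} =
        {z | sInf {x | P z x ∧ ∀ k < n, Nat.nth (P z) k < x} = b} := by
      ext z
      simp only [mem_ofPred_eq]
      rw [Nat.nth_eq_sInf]
    rw [h']
    refine meas_sInf (fun x => ?_) b
    refine (hP x).inter (meas_all fun k => ?_)
    by_cases hk : k < n
    · refine meas_imp ?_
      have h2 : {z | Nat.nth (P z) k < x} = {z | ∃ c, c < x ∧ Nat.nth (P z) k = c} := by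
        ext z
        simp only [mem_ofPred_eq]
        constructor
        · intro h
          exact ⟨_, h, rfl⟩
        · rintro ⟨c, h1, h3⟩
          rw [h3]
          exact h1
      rw [h2]
      exact meas_ex fun c => (meas_const _).inter (ih k hk c)
    · have h2 : {z | k < n → Nat.nth (P z) k < x} = univ := by
        ext z
        exact ⟨fun _ => trivial, fun _ h => absurd h hk⟩
      rw [h2]
      exact MeasurableSet.univ

end Gen

variable {D : Type} [MeasurableSpace D]

lemma meas_r (v w : ℕ) (r : Fin 3) : MeasurableSet {z : Bst D | z.1 v w = r} := by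
  have h : Measurable fun z : Bst D => z.1 v w :=
    (measurable_pi_apply w).comp ((measurable_pi_apply v).comp measurable_fst)
  exact h (measurableSet_singleton r)

lemma meas_c (v : ℕ) : Measurable fun z : Bst D => (z.2 v).1 :=
  measurable_fst.comp ((measurable_pi_apply v).comp measurable_snd)

lemma meas_l (v : ℕ) : Measurable fun z : Bst D => (z.2 v).2 :=
  measurable_snd.comp ((measurable_pi_apply v).comp measurable_snd)

lemma meas_cS (v : ℕ) (A : Set ℕ) : MeasurableSet {z : Bst D | (z.2 v).1 ∈ A} :=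
  meas_c v (MeasurableSet.of_discrete)

lemma meas_cE (v n : ℕ) : MeasurableSet {z : Bst D | (z.2 v).1 = n} := meas_cS v {n}

lemma meas_lE [StandardBorelSpace D] (v : ℕ) (d : D) :
    MeasurableSet {z : Bst D | (z.2 v).2 = d} :=
  meas_l v (measurableSet_singleton d)

lemma meas_u [StandardBorelSpace D] (v n : ℕ) (d : D) :
    MeasurableSet {z : Bst D | z.2 v = (n, d)} := by
  have h : {z : Bst D | z.2 v = (n, d)} =
      {z : Bst D | (z.2 v).1 = n} ∩ {z : Bst D | (z.2 v).2 = d} := by
    ext z
    simp only [mem_ofPred_eq, mem_inter_iff, Prod.ext_iff]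
  rw [h]
  exact (meas_cE v n).inter (meas_lE v d)

lemma meas_en [StandardBorelSpace D] (o : D) (i a : ℕ) :
    MeasurableSet {z : Bst D | en o z i = a} :=
  meas_nth (fun v => meas_u v 0 o) i a

lemma meas_Pa (v p a : ℕ) : MeasurableSet {z : Bst D | Pa z v p a} :=
  meas_ex fun w => (meas_r v w 1).inter ((meas_cE w (p + 3)).inter (meas_r w a 2))

lemma meas_Tu [StandardBorelSpace D] (o : D) (v : ℕ) (l : List ℕ) :
    MeasurableSet {z : Bst D | Tu o z v l} := by
  refine (meas_cE v 2).inter (meas_all fun p => meas_all fun a => ?_)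
  refine meas_iff ?_ (meas_const _)
  have h : {z : Bst D | Pa z v p (en o z a)} =
      {z : Bst D | ∃ b, en o z a = b ∧ Pa z v p b} := by
    ext z
    simp only [mem_ofPred_eq]
    constructor
    · intro h
      exact ⟨_, rfl, h⟩
    · rintro ⟨b, rfl, h⟩
      exact h
  rw [h]
  exact meas_ex fun b => (meas_en o a b).inter (meas_Pa v p b)

end Meas

open Meas in
theorem pf_SM (D : Type) [MeasurableSpace D] [StandardBorelSpace D] : T_SM D := by
  classical
  intro o
  refine measurable_pi_iff.2 fun l => ?_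
  intro A hA
  have h : (fun z : Bst D => dcd o z l) ⁻¹' A =
      {z : Bst D | ∃ v, (Tu o z v l ∧ ∀ w, w < v → ¬ Tu o z w l) ∧ (z.2 v).2 ∈ A} ∪
      ({z : Bst D | ∀ v, ¬ Tu o z v l} ∩ {_z : Bst D | o ∈ A}) := by
    ext z
    simp only [mem_preimage, mem_union, mem_inter_iff, mem_ofPred_eq, dcd]
    by_cases hz : ∃ v, Tu o z v l
    · rw [dif_pos hz]
      constructor
      · intro h
        exact Or.inl ⟨Nat.find hz, ⟨Nat.find_spec hz, fun w hw => Nat.find_min hz hw⟩, h⟩
      · rintro (⟨v, ⟨h1, h2⟩, h3⟩ | ⟨h1, _⟩)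
        · have h4 : Nat.find hz = v := by
            rw [Nat.find_eq_iff]
            exact ⟨h1, h2⟩
          rw [h4]
          exact h3
        · obtain ⟨v, hv⟩ := hz
          exact absurd hv (h1 v)
    · rw [dif_neg hz]
      constructor
      · intro h
        exact Or.inr ⟨fun v hv => hz ⟨v, hv⟩, h⟩
      · rintro (⟨v, ⟨h1, _⟩, _⟩ | ⟨_, h⟩)
        · exact absurd ⟨v, h1⟩ hz
        · exact h
  rw [h]
  refine MeasurableSet.union (meas_ex fun v => ?_) ?_
  · refine MeasurableSet.inter (MeasurableSet.inter (meas_Tu o v l) (meas_all fun w => ?_))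
      (meas_l v hA)
    exact meas_imp (meas_Tu o w l).compl
  · exact MeasurableSet.inter (meas_all fun v => (meas_Tu o v l).compl) (meas_const _)

end Pool.Agent.SG
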