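import Pool.Agent.H16.SG.SM

/-!
# SV: the valid codes form a Borel set
-/

set_option autoImplicit false

open Set

namespace Pool.Agent.SG

open Pool.Agent.CW (Insep HasTK)

namespace Meas

lemma inf_iff (S : Set ℕ) : S.Infinite ↔ ∀ n, ∃ v, n ≤ v ∧ v ∈ S := by
  constructor
  · intro h n
    obtain ⟨v, hv, hn⟩ := h.exists_gt n
    exact ⟨v, hn.le, hv⟩
  · intro h hf
    obtain ⟨b, hb⟩ := hf.bddAbove
    obtain ⟨v, h1, h2⟩ := h (b + 1)
    have := hb h2
    omega

variable {D : Type} [MeasurableSpace D]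

lemma meas_inf {Z : Type*} [MeasurableSpace Z] {P : Z → ℕ → Prop}
    (hP : ∀ v, MeasurableSet {z | P z v}) : MeasurableSet {z | {v | P z v}.Infinite} := by
  have h : {z | {v | P z v}.Infinite} = {z | ∀ n, ∃ v, n ≤ v ∧ P z v} := by
    ext z
    simp only [mem_ofPred_eq]
    exact inf_iff _
  rw [h]
  exact meas_all fun n => meas_ex fun v => (meas_const _).inter (hP v)

lemma meas_len (v k : ℕ) : MeasurableSet {z : Bst D |
    ∀ p, (∃ w, z.1 v w = 1 ∧ (z.2 w).1 = p + 3) ↔ p < k} :=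
  meas_all fun p => meas_iff (meas_ex fun w => (meas_r v w 1).inter (meas_cE w (p + 3)))
    (meas_const _)

lemma meas_ceq (w w' : ℕ) : MeasurableSet {z : Bst D | (z.2 w).1 = (z.2 w').1} := by
  have h : {z : Bst D | (z.2 w).1 = (z.2 w').1} =
      {z : Bst D | ∃ n, (z.2 w).1 = n ∧ (z.2 w').1 = n} := by
    ext z
    simp only [mem_ofPred_eq]
    constructor
    · intro h
      exact ⟨_, h, rfl⟩
    · rintro ⟨n, h1, h2⟩
      exact h1.trans h2.symm
  rw [h]
  exact meas_ex fun n => (meas_cE w n).inter (meas_cE w' n)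

end Meas

open Meas in
theorem pf_SV (D : Type) [MeasurableSpace D] [StandardBorelSpace D] : T_SV D := by
  intro o
  have h : {z : Bst D | Vld o z} =
      {z : Bst D | {v | z.2 v = (0, o)}.Infinite} ∩
      ({z : Bst D | {v | z.2 v = (1, o)}.Infinite} ∩
      ({z : Bst D | ∀ v, (z.2 v).1 = 2 ↔ (z.2 v).2 ≠ o} ∩
      ({z : Bst D | ∀ v w, z.1 v w = 1 → (z.2 v).1 = 2 ∧ 3 ≤ (z.2 w).1} ∩
      ({z : Bst D | ∀ v w, z.1 v w = 2 → 3 ≤ (z.2 v).1 ∧ (z.2 w).1 = 0} ∩
      ({z : Bst D | ∀ w, 3 ≤ (z.2 w).1 → ∃ v, z.1 v w = 1} ∩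
      ({z : Bst D | ∀ v v' w, z.1 v w = 1 → z.1 v' w = 1 → v = v'} ∩
      ({z : Bst D | ∀ w, 3 ≤ (z.2 w).1 → ∃ a, z.1 w a = 2} ∩
      ({z : Bst D | ∀ w a a', z.1 w a = 2 → z.1 w a' = 2 → a = a'} ∩
      ({z : Bst D | ∀ v, (z.2 v).1 = 2 →
        ∃ k, ∀ p, (∃ w, z.1 v w = 1 ∧ (z.2 w).1 = p + 3) ↔ p < k} ∩
      ({z : Bst D | ∀ v w w', z.1 v w = 1 → z.1 v w' = 1 → (z.2 w).1 = (z.2 w').1 → w = w'} ∩
      {z : Bst D | ∀ v v', (z.2 v).1 = 2 → (z.2 v').1 = 2 →
        (∀ p a, Pa z v p a ↔ Pa z v' p a) → v = v'})))))))))) := by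
    ext z
    simp only [mem_inter_iff, mem_ofPred_eq]
    constructor
    · rintro ⟨h1, h2, h3, h4, h5, h6, h7, h8, h9, h10, h11, h12⟩
      exact ⟨h1, h2, h3, h4, h5, h6, h7, h8, h9, h10, h11, h12⟩
    · rintro ⟨h1, h2, h3, h4, h5, h6, h7, h8, h9, h10, h11, h12⟩
      exact ⟨h1, h2, h3, h4, h5, h6, h7, h8, h9, h10, h11, h12⟩
  rw [h]
  have h3 : ∀ w, MeasurableSet {z : Bst D | 3 ≤ (z.2 w).1} := fun w => meas_cS w (Ici 3)
  refine (meas_inf fun v => meas_u v 0 o).inter ((meas_inf fun v => meas_u v 1 o).inter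
    (MeasurableSet.inter ?_ (MeasurableSet.inter ?_ (MeasurableSet.inter ?_
    (MeasurableSet.inter ?_ (MeasurableSet.inter ?_ (MeasurableSet.inter ?_
    (MeasurableSet.inter ?_ (MeasurableSet.inter ?_ (MeasurableSet.inter ?_ ?_))))))))))
  · exact meas_all fun v => meas_iff (meas_cE v 2) (meas_lE v o).compl
  · exact meas_all fun v => meas_all fun w => meas_imp' (meas_r v w 1)
      ((meas_cE v 2).inter (h3 w))
  · exact meas_all fun v => meas_all fun w => meas_imp' (meas_r v w 2)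
      ((h3 v).inter (meas_cE w 0))
  · exact meas_all fun w => meas_imp' (h3 w) (meas_ex fun v => meas_r v w 1)
  · exact meas_all fun v => meas_all fun v' => meas_all fun w => meas_imp' (meas_r v w 1)
      (meas_imp' (meas_r v' w 1) (meas_const _))
  · exact meas_all fun w => meas_imp' (h3 w) (meas_ex fun a => meas_r w a 2)
  · exact meas_all fun w => meas_all fun a => meas_all fun a' => meas_imp' (meas_r w a 2)
      (meas_imp' (meas_r w a' 2) (meas_const _))
  · exact meas_all fun v => meas_imp' (meas_cE v 2) (meas_ex fun k => meas_len v k)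
  · exact meas_all fun v => meas_all fun w => meas_all fun w' => meas_imp' (meas_r v w 1)
      (meas_imp' (meas_r v w' 1) (meas_imp' (meas_ceq w w') (meas_const _)))
  · exact meas_all fun v => meas_all fun v' => meas_imp' (meas_cE v 2) (meas_imp' (meas_cE v' 2)
      (meas_imp' (meas_all fun p => meas_all fun a => meas_iff (meas_Pa v p a) (meas_Pa v' p a))
        (meas_const _)))

end Pool.Agent.SG
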